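import Pool.Agent.H223.CC.Man
import Pool.Agent.H223.CE.Man3

set_option autoImplicit false
set_option linter.unusedSectionVars false

open Filter Topology Set

namespace Pool.Agent.H223.RN

open Pool.Agent.H223.CE Pool.Agent.H223.CC Pool.Agent.H721R2

section exp

variable {X : Type*} [MetricSpace X]

theorem exp_iter (T : X ≃ₜ X) {R : ℝ} (hR : 0 < R) (hCH : ∀ x y, R ≤ dist x y →
      2 * dist x y ≤ max (dist (T x) (T y)) (dist (T.symm x) (T.symm y))) (x y : X)
    (hxy : R ≤ dist x y) (h : 2 * dist x y ≤ dist (T x) (T y)) (j : ℕ) :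
    R ≤ dist (T^[j] x) (T^[j] y) ∧ 2 * dist (T^[j] x) (T^[j] y) ≤ dist (T^[j + 1] x) (T^[j + 1] y)
      ∧ dist x y ≤ dist (T^[j] x) (T^[j] y) := by
  induction j with
  | zero => exact ⟨hxy, h, le_rfl⟩
  | succ j ih =>
    obtain ⟨h1, h2, h4⟩ := ih
    have h3 := hCH (T^[j + 1] x) (T^[j + 1] y) (by linarith)
    have e : ∀ z, T.symm (T^[j + 1] z) = T^[j] z := fun z => by
      rw [Function.iterate_succ_apply' T, Homeomorph.symm_apply_apply]
    rw [e, e, ← Function.iterate_succ_apply' T, ← Function.iterate_succ_apply' T] at h3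
    refine ⟨by linarith, ?_, by linarith⟩
    rcases le_max_iff.mp h3 with h5 | h5
    · exact h5
    · linarith

theorem ch_iter (T : X ≃ₜ X) {R : ℝ} (hR : 0 < R) (hCH : ∀ x y, R ≤ dist x y →
      2 * dist x y ≤ max (dist (T x) (T y)) (dist (T.symm x) (T.symm y))) (k : ℕ) (x y : X)
    (hxy : R ≤ dist x y) :
    2 * dist x y ≤ max (dist (T^[k + 1] x) (T^[k + 1] y))
      (dist (T.symm^[k + 1] x) (T.symm^[k + 1] y)) := by
  rcases le_max_iff.mp (hCH x y hxy) with h | h
  · obtain ⟨h1, h2, h3⟩ := exp_iter T hR hCH x y hxy h k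
    exact le_max_of_le_left (by linarith)
  · obtain ⟨h1, h2, h3⟩ := exp_iter T.symm hR (fun x y hxy => by
      rw [max_comm]; exact hCH x y hxy) x y hxy h k
    exact le_max_of_le_right (by linarith)

end exp

section fix

variable {X Γ : Type*} [MetricSpace X] [ProperSpace X]
  [Group Γ] [MulAction Γ X] [IsIsometricSMul Γ X]

/-- the lift `γ⁻¹ F^n` -/
def lift (F : X ≃ₜ X) (n : ℕ) (γ : Γ) : X ≃ₜ X where
  toFun x := γ⁻¹ • F^[n] x
  invFun x := F.symm^[n] (γ • x)
  left_inv x := by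
    show F.symm^[n] (γ • γ⁻¹ • F^[n] x) = x
    rw [smul_inv_smul]
    exact Pool.Agent.H721R2.eq_symm_iter_iter F.toEquiv n x
  right_inv x := by
    show γ⁻¹ • F^[n] (F.symm^[n] (γ • x)) = x
    have : F^[n] (F.symm^[n] (γ • x)) = γ • x :=
      Pool.Agent.H721R2.eq_iter_symm_iter F.toEquiv n (γ • x)
    rw [this, inv_smul_smul]
  continuous_toFun := (isometry_smul X γ⁻¹).continuous.comp (F.continuous.iterate n)
  continuous_invFun := (F.symm.continuous.iterate n).comp (isometry_smul X γ).continuous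

theorem lift_dist {F : X ≃ₜ X}
    (hn1 : ∀ (n : ℕ) (γ : Γ) (x y : X),
      dist (F^[n] (γ • x)) (F^[n] (γ • y)) = dist (F^[n] x) (F^[n] y)) (n : ℕ) (γ : Γ) (j m : ℕ)
    (a b : X) : dist (F^[m] ((lift F n γ)^[j] a)) (F^[m] ((lift F n γ)^[j] b)) =
      dist (F^[m + n * j] a) (F^[m + n * j] b) := by
  induction j generalizing m a b with
  | zero => rfl
  | succ j ih =>
    rw [Function.iterate_succ_apply, Function.iterate_succ_apply, ih]
    show dist (F^[m + n * j] (γ⁻¹ • F^[n] a)) (F^[m + n * j] (γ⁻¹ • F^[n] b)) = _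
    rw [hn1, ← Function.iterate_add_apply, ← Function.iterate_add_apply,
      show m + n * j + n = m + n * (j + 1) by ring]

theorem lift_dist' {F : X ≃ₜ X}
    (hn2 : ∀ (n : ℕ) (γ : Γ) (x y : X),
      dist (F.symm^[n] (γ • x)) (F.symm^[n] (γ • y)) = dist (F.symm^[n] x) (F.symm^[n] y))
    (n : ℕ) (γ : Γ) (j m : ℕ)
    (a b : X) : dist (F.symm^[m] ((lift F n γ).symm^[j] a)) (F.symm^[m] ((lift F n γ).symm^[j] b)) =
      dist (F.symm^[m + n * j] a) (F.symm^[m + n * j] b) := by
  induction j generalizing m a b with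
  | zero => rfl
  | succ j ih =>
    rw [Function.iterate_succ_apply, Function.iterate_succ_apply, ih]
    show dist (F.symm^[m + n * j] (F.symm^[n] (γ • a))) (F.symm^[m + n * j] (F.symm^[n] (γ • b)))
      = _
    rw [← Function.iterate_add_apply, ← Function.iterate_add_apply, hn2,
      show m + n * j + n = m + n * (j + 1) by ring]

/-- **Every lift of every iterate has a fixed point.** -/
theorem exists_fix {F : X ≃ₜ X}
    (hn1 : ∀ (n : ℕ) (γ : Γ) (x y : X),
      dist (F^[n] (γ • x)) (F^[n] (γ • y)) = dist (F^[n] x) (F^[n] y))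
    (hn2 : ∀ (n : ℕ) (γ : Γ) (x y : X),
      dist (F.symm^[n] (γ • x)) (F.symm^[n] (γ • y)) = dist (F.symm^[n] x) (F.symm^[n] y))
    (hcl : ∀ (i : ℕ) (B : ℝ), ∃ B', ∀ x y, dist x y ≤ B → dist (F^[i] x) (F^[i] y) ≤ B' ∧
      dist (F.symm^[i] x) (F.symm^[i] y) ≤ B')
    (hCH : CoarselyHyperbolic F) (hgps : ∀ x y, ∃ w, As F x w ∧ As F.symm y w)
    (huq : ∀ (x y : X) (B : ℝ), (∀ n : ℕ, dist (F^[n] x) (F^[n] y) ≤ B) →
        (∀ n : ℕ, dist (F.symm^[n] x) (F.symm^[n] y) ≤ B) → x = y)
    [Nonempty X] (n : ℕ) (hn : 1 ≤ n) (γ : Γ) : ∃ x, F^[n] x = γ • x := by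
  obtain ⟨N, hN, R, hR⟩ := hCH
  obtain ⟨x0⟩ : Nonempty X := inferInstance
  set Φ : X ≃ₜ X := lift F n γ with hΦ
  set R' := max R 1 with hR'
  have hR'0 : 0 < R' := lt_of_lt_of_le one_pos (le_max_right _ _)
  -- the iterate
  set T : X ≃ₜ X := iterHomeo Φ N with hT
  have hTf : ∀ k x, T^[k] x = Φ^[N * k] x := by
    intro k x
    have : (T : X → X) = Φ^[N] := rfl
    rw [this, ← Function.iterate_mul]
  have hTs : ∀ k x, T.symm^[k] x = Φ.symm^[N * k] x := by
    intro k x
    have : (T.symm : X → X) = Φ.symm^[N] := rfl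
    rw [this, ← Function.iterate_mul]
  have d1 : ∀ k a b, dist (T^[k] a) (T^[k] b) = dist (F^[n * (N * k)] a) (F^[n * (N * k)] b) := by
    intro k a b
    have := lift_dist hn1 n γ (N * k) 0 a b
    rw [Nat.zero_add] at this
    rw [hTf, hTf]
    exact this
  have d2 : ∀ k a b, dist (T.symm^[k] a) (T.symm^[k] b) =
      dist (F.symm^[n * (N * k)] a) (F.symm^[n * (N * k)] b) := by
    intro k a b
    have := lift_dist' hn2 n γ (N * k) 0 a b
    rw [Nat.zero_add] at this
    rw [hTs, hTs]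
    exact this
  -- coarse hyperbolicity of `T`
  have hCH0 : ∀ x y, R' ≤ dist x y → 2 * dist x y ≤
      max (dist (iterHomeo F N x) (iterHomeo F N y))
        (dist ((iterHomeo F N).symm x)
          ((iterHomeo F N).symm y)) :=
    fun x y hxy => hR x y ((le_max_left _ _).trans hxy)
  have hCHT : ∀ x y, R' ≤ dist x y →
      2 * dist x y ≤ max (dist (T x) (T y)) (dist (T.symm x) (T.symm y)) := by
    intro x y hxy
    obtain ⟨k, rfl⟩ := Nat.exists_eq_add_of_le' hn
    have h1 := ch_iter _ hR'0 hCH0 k x y hxy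
    have e1 : ∀ z, (iterHomeo F N)^[k + 1] z = F^[(k + 1) * (N * 1)] z := by
      intro z
      have : (iterHomeo F N : X → X) = F^[N] := rfl
      rw [this, ← Function.iterate_mul, Nat.mul_one, Nat.mul_comm]
    have e2 : ∀ z, (iterHomeo F N).symm^[k + 1] z =
        F.symm^[(k + 1) * (N * 1)] z := by
      intro z
      have : ((iterHomeo F N).symm : X → X) = F.symm^[N] := rfl
      rw [this, ← Function.iterate_mul, Nat.mul_one, Nat.mul_comm]
    rw [e1, e1, e2, e2, ← d1, ← d2, Function.iterate_one, Function.iterate_one] at h1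
    exact h1
  have hmul : Tendsto (fun k : ℕ => n * (N * k)) atTop atTop := by
    refine tendsto_atTop_mono (fun k => ?_) tendsto_id
    exact (Nat.le_mul_of_pos_left k hN).trans (Nat.le_mul_of_pos_left _ hn)
  have hgT : ∀ x y, ∃ w, As T x w ∧ As T.symm y w := by
    intro x y
    obtain ⟨w, h1, h2⟩ := hgps x y
    refine ⟨w, ?_, ?_⟩
    · have h3 := Filter.Tendsto.comp h1 hmul
      exact h3.congr fun k => (d1 k x w).symm
    · have h3 := Filter.Tendsto.comp h2 hmul
      exact h3.congr fun k => (d2 k y w).symm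
  set C := max (dist (T x0) x0) (dist (T.symm x0) x0) with hC
  obtain ⟨w, hw⟩ := coarse_shadow T (le_max_of_le_left dist_nonneg : 0 ≤ C) hCHT hgT
    (fun _ => x0) (fun _ => le_max_left _ _) (fun _ => le_max_right _ _)
  set B := max R' C with hB
  obtain ⟨B1, hB1⟩ := (isCompact_closedBall x0 B).bddAbove_image
    (f := fun z => dist z (Φ z)) (continuous_id.dist Φ.continuous).continuousOn
  have hcomm : ∀ (k : ℕ) (z : X), T^[k] (Φ z) = Φ (T^[k] z) := by
    intro k z
    rw [hTf, hTf, ← Function.iterate_succ_apply (Φ : X → X), Function.iterate_succ_apply']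
  have hcomm' : ∀ (k : ℕ) (z : X), T.symm^[k] (Φ z) = Φ (T.symm^[k] z) := by
    intro k z
    rw [hTs, hTs]
    have h1 : ∀ (j : ℕ) (z : X), Φ.symm^[j] (Φ z) = Φ (Φ.symm^[j] z) := by
      intro j
      induction j with
      | zero => intro z; rfl
      | succ j ih =>
        intro z
        rw [Function.iterate_succ_apply, Homeomorph.symm_apply_apply,
          Function.iterate_succ_apply' Φ.symm j z, Homeomorph.apply_symm_apply]
    exact h1 _ z
  have b1 : ∀ k : ℕ, dist (T^[k] w) (T^[k] (Φ w)) ≤ B1 := by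
    intro k
    have h1 := hw k
    rw [zpow_nat_apply] at h1
    rw [hcomm]
    exact hB1 (mem_image_of_mem _ (Metric.mem_closedBall.mpr h1))
  have b2 : ∀ k : ℕ, dist (T.symm^[k] w) (T.symm^[k] (Φ w)) ≤ B1 := by
    intro k
    have h1 := hw (-k)
    rw [zpow_neg_nat_apply] at h1
    rw [hcomm']
    exact hB1 (mem_image_of_mem _ (Metric.mem_closedBall.mpr h1))
  choose B2 hB2 using fun i => hcl i B1
  have hnN : 0 < n * N := Nat.mul_pos hn hN
  set B3 := ((Finset.range (n * N)).sup' ⟨0, Finset.mem_range.mpr hnN⟩ B2) with hB3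
  have hle : ∀ i < n * N, B2 i ≤ B3 := fun i hi =>
    Finset.le_sup' B2 (Finset.mem_range.mpr hi)
  have key : w = Φ w := by
    refine huq w (Φ w) B3 (fun j => ?_) (fun j => ?_)
    · have h1 : j = j % (n * N) + n * (N * (j / (n * N))) := by
        rw [← Nat.mul_assoc]; exact (Nat.mod_add_div j (n * N)).symm
      have h2 : j % (n * N) < n * N := Nat.mod_lt _ hnN
      rw [h1, Function.iterate_add_apply, Function.iterate_add_apply]
      refine ((hB2 _ _ _ ?_).1).trans (hle _ h2)
      rw [← d1]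
      exact b1 _
    · have h1 : j = j % (n * N) + n * (N * (j / (n * N))) := by
        rw [← Nat.mul_assoc]; exact (Nat.mod_add_div j (n * N)).symm
      have h2 : j % (n * N) < n * N := Nat.mod_lt _ hnN
      rw [h1, Function.iterate_add_apply, Function.iterate_add_apply]
      refine ((hB2 _ _ _ ?_).2).trans (hle _ h2)
      rw [← d2]
      exact b2 _
  refine ⟨w, ?_⟩
  have h1 : γ⁻¹ • F^[n] w = w := key.symm
  exact inv_smul_eq_iff.mp h1

end fix

end Pool.Agent.H223.RN
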