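import Pool.Agent.H223.RN.Core
import Pool.Agent.H223.CL.Man

set_option autoImplicit false
set_option linter.unusedSectionVars false

open scoped Manifold ContDiff Topology
open Filter Set

namespace Pool.Agent.H223.RN

open Pool.Agent.H223.CE Pool.Agent.H223.CC Pool.Agent.H721R2 Pool.Agent.H789R2.AN

/-- Twisted conjugacy: `γ'` and `γ` are `φⁿ`-conjugate if `γ' = φⁿ(η) γ η⁻¹` for some `η`. -/
def TwConj {Γ : Type*} [Group Γ] (φ : Γ ≃* Γ) (n : ℕ) (γ γ' : Γ) : Prop :=
  ∃ η : Γ, γ' = φ^[n] η * γ * η⁻¹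

/-- The Reidemeister number of `φⁿ`: the number of twisted conjugacy classes. -/
noncomputable def reidemeister {Γ : Type*} [Group Γ] (φ : Γ ≃* Γ) (n : ℕ) : ℕ∞ :=
  ENat.card (Quot (TwConj φ n))

section count

variable {M X Γ : Type*} [Group Γ] [MulAction Γ X] {P : X → M} {f : M → M} {F : X → X}
  {φ : Γ ≃* Γ}

theorem iter_smul (hφ : ∀ (γ : Γ) (x : X), F (γ • x) = φ γ • F x) (n : ℕ) (γ : Γ) (x : X) :
    F^[n] (γ • x) = φ^[n] γ • F^[n] x := by
  induction n generalizing γ x with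
  | zero => rfl
  | succ n ih => rw [Function.iterate_succ_apply, hφ, ih]; rfl

theorem card_fix (hs : Function.Surjective P) (hΓ : ∀ x y, P x = P y ↔ ∃ γ : Γ, γ • x = y)
    (hF : ∀ x, P (F x) = f (P x)) (hφ : ∀ (γ : Γ) (x : X), F (γ • x) = φ γ • F x)
    (hfree : ∀ (γ : Γ) (x : X), γ • x = x → γ = 1) (n : ℕ)
    (hfix : ∀ γ : Γ, ∃! x, F^[n] x = γ • x) :
    {m | f^[n] m = m}.encard = reidemeister φ n := by
  have hFn : ∀ x, P (F^[n] x) = f^[n] (P x) := by
    intro x
    induction n generalizing x with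
    | zero => rfl
    | succ n ih =>
      have : ∀ (k : ℕ) (x : X), P (F^[k] x) = f^[k] (P x) := by
        intro k
        induction k with
        | zero => intro x; rfl
        | succ k ih => intro x; rw [Function.iterate_succ_apply, Function.iterate_succ_apply, ih, hF]
      exact this _ x
  choose a ha hau using fun γ => (hfix γ)
  have hPa : ∀ γ, f^[n] (P (a γ)) = P (a γ) := by
    intro γ
    rw [← hFn, (ha γ : F^[n] (a γ) = γ • a γ)]
    exact ((hΓ _ _).mpr ⟨γ, rfl⟩).symm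
  have hw : ∀ γ γ', TwConj φ n γ γ' → (⟨P (a γ), hPa γ⟩ : {m | f^[n] m = m}) = ⟨P (a γ'), hPa γ'⟩ := by
    rintro γ γ' ⟨η, rfl⟩
    have h1 : F^[n] (η • a γ) = (φ^[n] η * γ * η⁻¹) • (η • a γ) := by
      rw [iter_smul hφ, (ha γ : F^[n] (a γ) = γ • a γ), mul_smul, mul_smul, inv_smul_smul]
    have h2 := hau _ _ h1
    apply Subtype.ext
    show P (a γ) = P (a _)
    rw [← h2]
    exact (hΓ _ _).mpr ⟨η, rfl⟩
  let e : Quot (TwConj φ n) → {m | f^[n] m = m} := Quot.lift (fun γ => ⟨P (a γ), hPa γ⟩) hw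
  have he : Function.Bijective e := by
    constructor
    · rintro ⟨γ⟩ ⟨γ'⟩ h
      have h1 : P (a γ) = P (a γ') := congrArg Subtype.val h
      obtain ⟨η, hη⟩ := (hΓ _ _).mp h1
      apply Quot.sound
      refine ⟨η, ?_⟩
      have h2 : γ' • a γ' = (φ^[n] η * γ * η⁻¹) • a γ' := by
        rw [← (ha γ' : F^[n] (a γ') = γ' • a γ')]
        conv_lhs => rw [← hη]
        rw [iter_smul hφ, (ha γ : F^[n] (a γ) = γ • a γ), mul_smul, mul_smul, ← hη, inv_smul_smul]
      have h3 : ((φ^[n] η * γ * η⁻¹)⁻¹ * γ') • a γ' = a γ' := by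
        rw [mul_smul, h2, inv_smul_smul]
      have h4 := hfree _ _ h3
      exact (inv_mul_eq_one.mp h4).symm
    · rintro ⟨m, hm⟩
      obtain ⟨x, rfl⟩ := hs m
      have hm' : f^[n] (P x) = P x := hm
      obtain ⟨γ, hγ⟩ := (hΓ x (F^[n] x)).mp (by rw [hFn, hm'])
      refine ⟨Quot.mk _ γ, Subtype.ext ?_⟩
      show P (a γ) = P x
      rw [hau γ x hγ.symm]
  exact (ENat.card_congr (Equiv.ofBijective e he)).symm

end count

variable {E : Type*} [NormedAddCommGroup E] [NormedSpace ℝ E] [FiniteDimensional ℝ E]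
  {M : Type*} [TopologicalSpace M] [T2Space M] [CompactSpace M] [ConnectedSpace M]
  [ChartedSpace E M] [IsManifold 𝓘(ℝ, E) ∞ M]
  {X : Type*} [MetricSpace X] [ProperSpace X] [ConnectedSpace X]
  {Γ : Type*} [Group Γ] [MulAction Γ X] [IsIsometricSMul Γ X]

theorem man_fix (f : Diffeomorph 𝓘(ℝ, E) 𝓘(ℝ, E) M M 1)
    (Es Eu : ∀ x : M, Submodule ℝ (TangentSpace 𝓘(ℝ, E) x)) (hA : IsAnosov f Es Eu)
    (P : X → M) (hP : IsCoveringMap P) (hs : Function.Surjective P)
    (hΓ : ∀ x y, P x = P y ↔ ∃ γ : Γ, γ • x = y) (F : X ≃ₜ X) (hF : ∀ x, P (F x) = f (P x))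
    (hCH : CoarselyHyperbolic F) :
    List.TFAE [
      TopTransitive f ∧ ∀ x y, ∃! w, Asymp F x w ∧ Asymp F.symm y w,
      ∀ x, IsClosed {y | Asymp F.symm x y},
      NWeak Γ F,
      ∀ n : ℕ, 1 ≤ n → ∀ γ : Γ, ∃! x, F^[n] x = γ • x] := by
  obtain ⟨m, e, he, hemb, -⟩ := exists_embedding_euclidean_of_compact (I := 𝓘(ℝ, E)) (M := M)
  let _ : MetricSpace M := hemb.isEmbedding.comapMetricSpace e
  have hF' : ∀ x, P (F.symm x) = f.symm (P x) := by
    intro x
    apply f.injective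
    show f (P (F.symm x)) = f (f.symm (P x))
    rw [← hF, Homeomorph.apply_symm_apply]
    exact (f.apply_symm_apply _).symm
  have hm1 := inv_iter (F := F) (lift_normal' hP hΓ (f := f) F.continuous hF)
  have hm2 := inv_iter (F := F.symm) (lift_normal' hP hΓ (f := f.symm) F.symm.continuous hF')
  have hT := man_tfae f Es Eu hA P hP hs hΓ F hF (Or.inl hCH)
  have hC := Pool.Agent.H223.CL.man_cl f Es Eu hA P hP hs hΓ F hF
  have hbb := (Pool.Agent.H223.CL.man_uniq f Es Eu hA P hP hs hΓ F hF).2 (dominated_of_ch F hCH)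
  obtain ⟨K, hK, hKΓ⟩ := exists_K (Γ := Γ) hP hs hΓ
  tfae_have 2 → 1 := fun h => (hC.out 1 0).mp (And.intro hbb h)
  tfae_have 1 → 2 := by
    intro h
    have h1 : Pool.Agent.H223.PG.BoundedBrackets F ∧ ∀ x, IsClosed {y | Asymp F.symm x y} :=
      (hC.out 0 1).mp h
    exact h1.2
  tfae_have 3 → 1 := fun h => (hT.out 4 0).mp h
  tfae_have 4 → 3 := by
    intro h
    refine nweak_of_nfix fun n hn γ x y hx hy => (h n hn γ).unique hx hy
  tfae_have 1 → 4 := by
    intro h n hn γ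
    have h3 := (hT.out 0 2).mp h
    have h4 : NFix Γ F := (hT.out 0 3).mp h
    have hcl : ∀ (i : ℕ) (B : ℝ), ∃ B', ∀ x y, dist x y ≤ B → dist (F^[i] x) (F^[i] y) ≤ B' ∧
        dist (F.symm^[i] x) (F.symm^[i] y) ≤ B' := by
      intro i c
      have hKc : IsCompact (K ×ˢ Metric.cthickening c K) := hK.prod hK.cthickening
      have hcont : Continuous (fun p : X × X => dist (F^[i] p.1) (F^[i] p.2)) :=
        ((F.continuous.iterate i).comp continuous_fst).dist
          ((F.continuous.iterate i).comp continuous_snd)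
      have hcont' : Continuous (fun p : X × X => dist (F.symm^[i] p.1) (F.symm^[i] p.2)) :=
        ((F.symm.continuous.iterate i).comp continuous_fst).dist
          ((F.symm.continuous.iterate i).comp continuous_snd)
      obtain ⟨c', hc'⟩ := hKc.bddAbove_image hcont.continuousOn
      obtain ⟨c'', hc''⟩ := hKc.bddAbove_image hcont'.continuousOn
      refine ⟨max c' c'', fun x y hxy => ?_⟩
      obtain ⟨γ, hγ⟩ := hKΓ x
      have h6 : (γ • x, γ • y) ∈ K ×ˢ Metric.cthickening c K := by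
        refine ⟨hγ, Metric.mem_cthickening_of_dist_le (γ • y) (γ • x) c K hγ ?_⟩
        rw [dist_smul, dist_comm]; exact hxy
      have h7 : dist (F^[i] (γ • x)) (F^[i] (γ • y)) ≤ c' := hc' (mem_image_of_mem _ h6)
      have h8 : dist (F.symm^[i] (γ • x)) (F.symm^[i] (γ • y)) ≤ c'' :=
        hc'' (mem_image_of_mem _ h6)
      rw [hm1] at h7
      rw [hm2] at h8
      exact ⟨h7.trans (le_max_left _ _), h8.trans (le_max_right _ _)⟩
    obtain ⟨x, hx⟩ := exists_fix (Γ := Γ) hm1 hm2 hcl hCH (fun x y => (h.2 x y).exists) h3 n hn γ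
    exact ⟨x, hx, fun y hy => h4 n hn γ y x hy hx⟩
  tfae_finish

include E in
theorem man_finite (f : M ≃ₜ M) (P : X → M) (hP : IsCoveringMap P) (hs : Function.Surjective P)
    (hΓ : ∀ x y, P x = P y ↔ ∃ γ : Γ, γ • x = y) (F : X ≃ₜ X) (hF : ∀ x, P (F x) = f (P x))
    (n : ℕ) (hfix : ∀ (γ : Γ) (x y : X), F^[n] x = γ • x → F^[n] y = γ • y → x = y) :
    {m | f^[n] m = m}.Finite := by
  obtain ⟨m, e, he, hemb, -⟩ := exists_embedding_euclidean_of_compact (I := 𝓘(ℝ, E)) (M := M)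
  let _ : MetricSpace M := hemb.isEmbedding.comapMetricSpace e
  obtain ⟨K, hK, hKΓ⟩ := exists_K (Γ := Γ) hP hs hΓ
  obtain ⟨r, hr, hinj⟩ := exists_inj hP hΓ hK hKΓ
  have hFn : ∀ (k : ℕ) (x : X), P (F^[k] x) = f^[k] (P x) := by
    intro k
    induction k with
    | zero => intro x; rfl
    | succ k ih => intro x; rw [Function.iterate_succ_apply, Function.iterate_succ_apply, ih, hF]
  have hclosed : IsClosed {m | f^[n] m = m} := isClosed_eq (f.continuous.iterate n) continuous_id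
  have hloc : ∀ m : M, ∃ U ∈ 𝓝 m, f^[n] m = m → ∀ m' ∈ U, f^[n] m' = m' → m' = m := by
    intro m
    obtain ⟨x, rfl⟩ := hs m
    by_cases hm : f^[n] (P x) = P x
    · obtain ⟨γ, hγ⟩ := (hΓ x (F^[n] x)).mp (by rw [hFn, hm])
      have hc : ContinuousAt (F^[n]) x := (F.continuous.iterate n).continuousAt
      obtain ⟨s, hs0, hs1⟩ := Metric.continuousAt_iff.mp hc (r / 2) (half_pos hr)
      refine ⟨P '' Metric.ball x (min s (r / 2)),
        hP.isLocalHomeomorph.isOpenMap.image_mem_nhds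
          (Metric.ball_mem_nhds x (lt_min hs0 (half_pos hr))), fun _ => ?_⟩
      rintro _ ⟨y, hy, rfl⟩ hy'
      have hy1 : dist y x < s := lt_of_lt_of_le hy (min_le_left _ _)
      have hy2 : dist y x < r / 2 := lt_of_lt_of_le hy (min_le_right _ _)
      have h1 := hs1 hy1
      have h2 : dist (F^[n] y) (γ • y) < r := by
        have h3 := dist_triangle (F^[n] y) (F^[n] x) (γ • y)
        rw [← hγ, dist_smul, dist_comm x y, hγ] at h3
        linarith
      have h4 : P (F^[n] y) = P (γ • y) := by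
        rw [hFn, hy', proj_smul hΓ]
      have h5 := hinj _ _ h2 h4
      rw [hfix γ y x h5 hγ.symm]
    · exact ⟨Set.univ, Filter.univ_mem, fun h => absurd h hm⟩
  choose U hU hU' using hloc
  obtain ⟨t, ht, hcov⟩ := hclosed.isCompact.elim_nhds_subcover U (fun m _ => hU m)
  refine t.finite_toSet.subset fun m' hm' => ?_
  have h1 := hcov hm'
  simp only [mem_iUnion, exists_prop] at h1
  obtain ⟨m, hm, hmU⟩ := h1
  rw [hU' m (ht m hm) m' hmU hm']
  exact hm

end Pool.Agent.H223.RN
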